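import Pool.Agent.T6.H68.QNR.Main

set_option autoImplicit false

open Polynomial

namespace Pool.Agent.Results.MP_16d611_an.QNumericalRangeBound

/-- The `q`-numerical range `W_q(A) = {⟨Ax, y⟩ : ‖x‖ = ‖y‖ = 1, ⟨x, y⟩ = q}`; Mathlib writes
`inner ℂ y x` for the inner product `∑ i, x i * conj (y i)`, linear in `x`. -/
def qRange {n : ℕ} (A : Matrix (Fin n) (Fin n) ℂ) (q : ℂ) : Set ℂ :=
  {w : ℂ | ∃ x y : EuclideanSpace ℂ (Fin n), ‖x‖ = 1 ∧ ‖y‖ = 1 ∧ inner ℂ y x = q ∧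
    inner ℂ y (Matrix.toEuclideanCLM (𝕜 := ℂ) A x) = w}

/-- The scaled `q`-numerical range `Ω_q = W_q(A) / q`. -/
def scaledRange {n : ℕ} (A : Matrix (Fin n) (Fin n) ℂ) (q : ℂ) : Set ℂ :=
  {z : ℂ | ∃ w ∈ qRange A q, w / q = z}

/-- The constant `c(q) = max (1, 2|q| / (1 + √(1 - |q|²)))`. -/
noncomputable def cq (q : ℂ) : ℝ := max 1 (2 * ‖q‖ / (1 + √(1 - ‖q‖ ^ 2)))

/-- Full Q1: `‖p(A)‖ ≤ c(q) sup_{Ω_q} |p|`. The hypothesis `n = 1 → ‖q‖ = 1` only removes the case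
`n = 1`, `|q| < 1`, in which `W_q(A)` is empty. -/
theorem result (n : ℕ) (hn : 1 ≤ n) (A : Matrix (Fin n) (Fin n) ℂ) (q : ℂ) (hq0 : 0 < ‖q‖)
    (hq1 : ‖q‖ ≤ 1) (hdeg : n = 1 → ‖q‖ = 1) (p : ℂ[X]) :
    (scaledRange A q).Nonempty ∧
      BddAbove ((fun z : ℂ => ‖p.eval z‖) '' scaledRange A q) ∧
      ‖Matrix.toEuclideanCLM (𝕜 := ℂ) (aeval A p)‖ ≤
        cq q * sSup ((fun z : ℂ => ‖p.eval z‖) '' scaledRange A q) := by
  have hne : NeZero n := ⟨by omega⟩
  have hnt : Nontrivial (EuclideanSpace ℂ (Fin n)) := inferInstance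
  have hq : q ≠ 0 := norm_pos_iff.mp hq0
  set φ := Matrix.toEuclideanCLM (n := Fin n) (𝕜 := ℂ) with hφ
  have hmat : φ (aeval A p) = aeval (φ A) p :=
    (Polynomial.aeval_algHom_apply (φ.toAlgEquiv.toAlgHom) A p).symm
  -- membership in the scaled range
  have hmem : ∀ x y : EuclideanSpace ℂ (Fin n), ‖x‖ = 1 → ‖y‖ = 1 → inner ℂ y x = q →
      inner ℂ y (φ A x) / q ∈ scaledRange A q := by
    intro x y hx hy hxy
    exact ⟨_, ⟨x, y, hx, hy, hxy, rfl⟩, rfl⟩
  -- boundedness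
  have hbd : BddAbove ((fun z : ℂ => ‖p.eval z‖) '' scaledRange A q) := by
    have hsub : scaledRange A q ⊆ Metric.closedBall (0 : ℂ) (‖φ A‖ / ‖q‖) := by
      rintro z ⟨w, ⟨x, y, hx, hy, _, rfl⟩, rfl⟩
      rw [Metric.mem_closedBall, dist_zero_right, norm_div]
      gcongr
      calc ‖inner ℂ y (φ A x)‖ ≤ ‖y‖ * ‖φ A x‖ := norm_inner_le_norm _ _
        _ ≤ ‖y‖ * (‖φ A‖ * ‖x‖) := by gcongr; exact (φ A).le_opNorm x
        _ = ‖φ A‖ := by rw [hx, hy]; ring
    have hcomp : IsCompact ((fun z : ℂ => ‖p.eval z‖) '' Metric.closedBall (0 : ℂ) (‖φ A‖ / ‖q‖)) :=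
      (isCompact_closedBall 0 _).image (by fun_prop)
    exact hcomp.bddAbove.mono (Set.image_mono hsub)
  set M : ℝ := sSup ((fun z : ℂ => ‖p.eval z‖) '' scaledRange A q) with hM
  have hle : ∀ z ∈ scaledRange A q, ‖p.eval z‖ ≤ M := fun z hz => le_csSup hbd ⟨z, hz, rfl⟩
  rcases lt_or_eq_of_le hq1 with hlt | heq
  · -- the case |q| < 1
    have hn2 : 2 ≤ n := by
      rcases Nat.lt_or_ge n 2 with h | h
      · have h1 : n = 1 := by omega
        have := hdeg h1
        linarith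
      · exact h
    have hfr : 2 ≤ Module.finrank ℂ (EuclideanSpace ℂ (Fin n)) := by
      rw [finrank_euclideanSpace_fin]; exact hn2
    -- adjusting the phase
    have hu : ∀ x y : EuclideanSpace ℂ (Fin n), ‖x‖ = 1 → ‖y‖ = 1 →
        inner ℂ y x = ((‖q‖ : ℝ) : ℂ) →
        inner ℂ y (φ A x) / ((‖q‖ : ℝ) : ℂ) ∈ scaledRange A q := by
      intro x y hx hy hxy
      have hqc : ((‖q‖ : ℝ) : ℂ) ≠ 0 := by exact_mod_cast hq0.ne'
      set u : ℂ := q / ((‖q‖ : ℝ) : ℂ) with hu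
      have hun : ‖u‖ = 1 := by
        rw [hu, norm_div, Complex.norm_real, norm_norm, div_self hq0.ne']
      have hu0 : u ≠ 0 := by rw [← norm_pos_iff, hun]; exact one_pos
      have huq : u * ((‖q‖ : ℝ) : ℂ) = q := by rw [hu, div_mul_cancel₀ _ hqc]
      have h1 := hmem x (star u • y) hx (by rw [norm_smul, norm_star, hun, hy, one_mul]) (by
        rw [inner_smul_left, hxy, Complex.star_def, Complex.conj_conj, huq])
      have h2 : inner ℂ (star u • y) (φ A x) / q = inner ℂ y (φ A x) / ((‖q‖ : ℝ) : ℂ) := by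
        rw [inner_smul_left, Complex.star_def, Complex.conj_conj]
        conv_lhs => rw [← huq]
        rw [mul_div_mul_left _ _ hu0]
      rw [h2] at h1
      exact h1
    refine ⟨?_, hbd, ?_⟩
    · obtain ⟨x, y, hx, hy, hxy, _⟩ := Pool.Agent.T6.H68.QNR.pair_exists hfr
        (0 : EuclideanSpace ℂ (Fin n) →L[ℂ] EuclideanSpace ℂ (Fin n)) ‖q‖ hq0 hlt (by
        intro s
        rw [zero_sub, norm_neg, norm_smul, norm_one, mul_one]
        nlinarith [norm_nonneg s])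
      exact ⟨_, hu x y hx hy hxy⟩
    · have h := Pool.Agent.T6.H68.QNR.q_bound hfr (φ A) ‖q‖ hq0 hlt p M
        (fun x y hx hy hxy => hle _ (hu x y hx hy hxy))
      rw [Pool.Agent.T6.H68.QNR.const_eq ‖q‖ hq0 hq1] at h
      rw [hmat]
      have hc : cq q = max 1 (2 * (‖q‖ / (1 + √(1 - ‖q‖ ^ 2)))) := by
        unfold cq
        rw [mul_div_assoc]
      rw [hc]
      exact h
  · -- the case |q| = 1
    have hstar : star q * q = 1 := by
      rw [mul_comm, Complex.star_def, Complex.mul_conj, Complex.normSq_eq_norm_sq, heq]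
      simp
    have hx1 : ∀ x : EuclideanSpace ℂ (Fin n), ‖x‖ = 1 →
        inner ℂ x (φ A x) ∈ scaledRange A q := by
      intro x hx
      have hxx : inner ℂ x x = (1 : ℂ) := by
        rw [inner_self_eq_norm_sq_to_K, hx]; simp
      have h1 := hmem x (star q • x) hx (by rw [norm_smul, norm_star, heq, hx, one_mul]) (by
        rw [inner_smul_left, hxx, Complex.star_def, Complex.conj_conj, mul_one])
      have h2 : inner ℂ (star q • x) (φ A x) / q = inner ℂ x (φ A x) := by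
        rw [inner_smul_left, Complex.star_def, Complex.conj_conj, mul_div_cancel_left₀ _ hq]
      rw [h2] at h1
      exact h1
    refine ⟨?_, hbd, ?_⟩
    · obtain ⟨x, hx⟩ := exists_norm_eq (EuclideanSpace ℂ (Fin n)) (zero_le_one (α := ℝ))
      exact ⟨_, hx1 x hx⟩
    · have h := Pool.Agent.W753.CZ.crouzeix_bound (φ A) p M (by
        rintro w ⟨x, hx, rfl⟩
        exact hle _ (hx1 x hx))
      rw [hmat]
      have hc : cq q = 2 := by
        unfold cq
        rw [heq]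
        norm_num
      rw [hc]
      exact h

end Pool.Agent.Results.MP_16d611_an.QNumericalRangeBound
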